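import Mathlib

set_option autoImplicit false

namespace Pool.Agent.H.MP_4002ad_an
open scoped ENNReal InnerProductSpace
open MeasureTheory Set FourierTransform SchwartzMap Real

theorem el {α : Type} [MeasurableSpace α] (μ : Measure α) (f : α → ℂ) :
    eLpNorm f 2 μ ^ 2 = ∫⁻ t, ‖f t‖ₑ ^ 2 ∂μ := by
  have := eLpNorm_nnreal_pow_eq_lintegral (f := f) (μ := μ) (p := 2) (by norm_num)
  simpa using this

theorem mem2 {α : Type} [MeasurableSpace α] {μ : Measure α} {f : α → ℂ}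
    (hf : AEStronglyMeasurable f μ) (h : ∫⁻ t, ‖f t‖ₑ ^ 2 ∂μ ≠ ⊤) : MemLp f 2 μ :=
  ⟨hf, by
    rw [← el] at h
    exact lt_top_iff_ne_top.mpr fun h0 => h (by rw [h0]; simp)⟩

theorem esq {F : Type} [NormedAddCommGroup F] (x : F) : ‖x‖ₑ ^ 2 = ENNReal.ofReal (‖x‖ ^ 2) := by
  rw [ENNReal.ofReal_pow (norm_nonneg _), ofReal_norm]

theorem onb {H I : Type} [NormedAddCommGroup H] [InnerProductSpace ℂ H] [CompleteSpace H]
    (v : I → H) (h1 : ∀ i, ‖v i‖ = 1) (h : ∀ f, ∑' i, ‖⟪v i, f⟫_ℂ‖ₑ ^ 2 = ‖f‖ₑ ^ 2) :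
    ∃ b : HilbertBasis I ℂ H, ∀ i, b i = v i := by
  classical
  have ho : Orthonormal ℂ v := by
    refine ⟨h1, fun i j hij => ?_⟩
    have h2 := h (v j)
    have e1 : ‖⟪v j, v j⟫_ℂ‖ₑ ^ 2 = 1 := by
      rw [esq, inner_self_eq_norm_sq_to_K, h1]; simp
    have e2 : ‖v j‖ₑ ^ 2 = 1 := by rw [esq, h1]; simp
    rw [ENNReal.tsum_eq_add_tsum_ite j, e1, e2] at h2
    have h3 : ∑' x, (if x = j then 0 else ‖⟪v x, v j⟫_ℂ‖ₑ ^ 2) = 0 :=
      (ENNReal.add_right_inj ENNReal.one_ne_top).mp (h2.trans (add_zero _).symm)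
    have h4 := ENNReal.tsum_eq_zero.mp h3 i
    simpa [hij] using h4
  refine ⟨HilbertBasis.mkOfOrthogonalEqBot ho ?_, fun i =>
    congrFun (HilbertBasis.coe_mkOfOrthogonalEqBot ho _) i⟩
  rw [Submodule.eq_bot_iff]
  intro f hf
  have h2 := h f
  have : ∀ i, ⟪v i, f⟫_ℂ = 0 := fun i =>
    Submodule.inner_right_of_mem_orthogonal (Submodule.subset_span (mem_range_self i)) hf
  simpa [this] using h2.symm

section
variable {E : Type} [NormedAddCommGroup E] [InnerProductSpace ℝ E] [FiniteDimensional ℝ E]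
  [MeasurableSpace E] [BorelSpace E]

theorem four (f : Lp ℂ 2 (volume : Measure E)) (hf : Integrable f) :
    (𝓕 f : Lp ℂ 2 (volume : Measure E)) =ᵐ[volume] 𝓕 (f : E → ℂ) := by
  have hL : Continuous fun p : E × E => innerₗ E p.1 p.2 := continuous_inner
  have : (𝓕 f : Lp ℂ 2 (volume : Measure E)) =ᵐ[volume]
      VectorFourier.fourierIntegral 𝐞 volume (innerₗ E).flip f := by
    refine ae_eq_of_integral_contDiff_smul_eq ((Lp.memLp _).locallyIntegrable (by simp))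
      (VectorFourier.fourierIntegral_continuous (L := (innerₗ E).flip) continuous_fourierChar
        (hL.comp continuous_swap) hf).locallyIntegrable fun u u1 u2 => ?_
    let φ := (u2.comp_left (g := Complex.ofRealCLM) (map_zero _)).toSchwartzMap
      (Complex.ofRealCLM.contDiff.comp u1)
    have h : ∫ x, φ x • (𝓕 f : Lp ℂ 2 (volume : Measure E)) x =
        ∫ x, VectorFourier.fourierIntegral 𝐞 volume (innerₗ E) φ x • f x := by
      rw [← Lp.toTemperedDistribution_apply, ← Lp.fourier_toTemperedDistribution_eq,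
        TemperedDistribution.fourier_apply, Lp.toTemperedDistribution_apply]
      rfl
    exact h.trans (VectorFourier.integral_fourierIntegral_smul_eq_flip continuous_fourierChar hL
      φ.integrable hf)
  rwa [flip_innerₗ] at this

theorem mapT (M : E →ₗ[ℝ] E) (hM : LinearMap.det M ≠ 0) (k : E) :
    Measurable (fun x => M x - k) ∧ Measure.map (fun x => M x - k) volume =
      ENNReal.ofReal |LinearMap.det M|⁻¹ • (volume : Measure E) := by
  have hm : Measurable M := M.continuous_of_finiteDimensional.measurable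
  refine ⟨hm.sub_const k, ?_⟩
  have : (fun x => M x - k) = (fun y => y - k) ∘ M := rfl
  rw [this, ← Measure.map_map (measurable_sub_const k) hm,
    Measure.map_linearMap_addHaar_eq_smul_addHaar _ hM, Measure.map_smul,
    (measurePreserving_sub_right volume k).map_eq, abs_inv]

theorem qmpT {T : E → E} {c : ℝ≥0∞} (hm : Measurable T)
    (hT : Measure.map T volume = c • (volume : Measure E)) :
    Measure.QuasiMeasurePreserving T volume volume :=
  ⟨hm, by rw [hT]; exact Measure.smul_absolutelyContinuous⟩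

theorem exOp {T : E → E} {c : ℝ} (hc : 0 < c) (hm : Measurable T)
    (hT : Measure.map T volume = ENNReal.ofReal (c ^ 2)⁻¹ • (volume : Measure E))
    (χ : E → ℂ) (hχ : Measurable χ) (hn : ∀ x, ‖χ x‖ = c) :
    ∃ W : Lp ℂ 2 (volume : Measure E) →ₗᵢ[ℂ] Lp ℂ 2 (volume : Measure E),
      ∀ f, W f =ᵐ[volume] fun x => χ x * f (T x) := by
  have q := qmpT hm hT
  have hN : ∀ f : Lp ℂ 2 (volume : Measure E),
      eLpNorm (fun x => χ x * f (T x)) 2 volume = eLpNorm f 2 volume := fun f => by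
    refine (ENNReal.pow_right_strictMono two_ne_zero).injective ?_
    simp only [el, enorm_mul, mul_pow, esq (χ _), hn]
    have hf : Measurable fun y => ‖f y‖ₑ ^ 2 := (Lp.stronglyMeasurable f).enorm.pow_const 2
    rw [lintegral_const_mul' _ _ ENNReal.ofReal_ne_top, ← lintegral_map hf hm, hT,
      lintegral_smul_measure, smul_eq_mul, ← mul_assoc, ← ENNReal.ofReal_mul (by positivity),
      mul_inv_cancel₀ (by positivity), ENNReal.ofReal_one, one_mul]
  have hM : ∀ f : Lp ℂ 2 (volume : Measure E), MemLp (fun x => χ x * f (T x)) 2 volume := fun f =>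
    ⟨hχ.aestronglyMeasurable.mul ((Lp.aestronglyMeasurable f).comp_quasiMeasurePreserving q),
      by rw [hN]; exact (Lp.memLp f).2⟩
  refine ⟨⟨⟨⟨fun f => (hM f).toLp _, fun f g => ?_⟩, fun a f => ?_⟩, fun f => ?_⟩,
    fun f => (hM f).coeFn_toLp⟩
  · rw [← MemLp.toLp_add]
    refine MemLp.toLp_congr _ _ ?_
    filter_upwards [q.ae (Lp.coeFn_add f g)] with x hx
    simp only [hx, Pi.add_apply, mul_add]
  · show (hM (a • f)).toLp _ = a • (hM f).toLp _
    rw [← MemLp.toLp_const_smul]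
    refine MemLp.toLp_congr _ _ ?_
    filter_upwards [q.ae (Lp.coeFn_smul a f)] with x hx
    simp only [hx, Pi.smul_apply, smul_eq_mul]
    ring
  · show ‖(hM f).toLp _‖ = _
    rw [Lp.norm_toLp, hN, Lp.norm_def]

theorem inter (M N : E →ₗ[ℝ] E) (k : E) (c : ℝ) (hc : 0 < c) (hM : |LinearMap.det M| = c ^ 2)
    (hN : |LinearMap.det N| = (c ^ 2)⁻¹) (hMN : ∀ x ξ, ⟪M x, N ξ⟫_ℝ = ⟪x, ξ⟫_ℝ) :
    ∃ U V : Lp ℂ 2 (volume : Measure E) →ₗᵢ[ℂ] Lp ℂ 2 (volume : Measure E),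
      (∀ f, U f =ᵐ[volume] fun x => (c : ℂ) * f (M x - k)) ∧
      (∀ f, V f =ᵐ[volume] fun ξ => ((c⁻¹ : ℝ) : ℂ) * (𝐞 (-⟪k, N ξ⟫_ℝ) : ℂ) * f (N ξ)) ∧
      ∀ f, 𝓕 (U f) = V (𝓕 f) := by
  have dM : LinearMap.det M ≠ 0 := by rw [← abs_pos, hM]; positivity
  have dN : LinearMap.det N ≠ 0 := by rw [← abs_pos, hN]; positivity
  obtain ⟨m1, m2⟩ := mapT M dM k
  obtain ⟨n1, n2⟩ := mapT N dN 0
  simp only [sub_zero] at n1 n2
  rw [hM] at m2
  rw [hN, ← inv_pow] at n2
  have cN := N.continuous_of_finiteDimensional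
  obtain ⟨U, hU⟩ := exOp hc m1 m2 (fun _ => (c : ℂ)) measurable_const fun _ => by simp [hc.le]
  obtain ⟨V, hV⟩ := exOp (inv_pos.mpr hc) n1 n2
    (fun ξ => ((c⁻¹ : ℝ) : ℂ) * (𝐞 (-⟪k, N ξ⟫_ℝ) : ℂ))
    (Continuous.measurable (by fun_prop)) fun _ => by
      rw [norm_mul, Circle.norm_coe, mul_one, Complex.norm_real, Real.norm_of_nonneg (by positivity)]
  refine ⟨U, V, hU, hV, fun f => ?_⟩
  refine DenseRange.induction_on (p := fun f => 𝓕 (U f) = V (𝓕 f))
    (SchwartzMap.denseRange_toLpCLM (p := 2) ENNReal.ofNat_ne_top) f ?_ fun φ => ?_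
  · exact isClosed_eq ((Lp.fourierTransformₗᵢ E ℂ).continuous.comp U.continuous)
      (V.continuous.comp (Lp.fourierTransformₗᵢ E ℂ).continuous)
  show 𝓕 (U (φ.toLp 2)) = V (𝓕 (φ.toLp 2))
  rw [SchwartzMap.toLp_fourier_eq]
  have e1 : U (φ.toLp 2) =ᵐ[volume] fun x => (c : ℂ) * φ (M x - k) := by
    filter_upwards [hU (φ.toLp 2), (qmpT m1 m2).ae (φ.coeFn_toLp 2 volume)] with x h1 h2
    rw [h1, h2]
  have i1 : Integrable (fun x => (c : ℂ) * φ (M x - k)) := by
    refine Integrable.const_mul ?_ _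
    refine (integrable_map_measure φ.continuous.aestronglyMeasurable m1.aemeasurable).mp ?_
    rw [m2]
    exact φ.integrable.smul_measure ENNReal.ofReal_ne_top
  refine Lp.ext ?_
  filter_upwards [four _ (i1.congr e1.symm), hV ((𝓕 φ).toLp 2),
    (qmpT n1 n2).ae ((𝓕 φ).coeFn_toLp 2 volume)] with ξ h1 h2 h3
  rw [h1, h2, h3, fourier_congr_ae e1, SchwartzMap.fourier_coe, fourier_eq, fourier_eq]
  have e2 : ∀ v, 𝐞 (-⟪v, ξ⟫_ℝ) • ((c : ℂ) * φ (M v - k)) =
      ((c : ℂ) * (𝐞 (-⟪k, N ξ⟫_ℝ) : ℂ)) * (𝐞 (-⟪M v - k, N ξ⟫_ℝ) • φ (M v - k)) := fun v => by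
    have : -⟪v, ξ⟫_ℝ = -⟪k, N ξ⟫_ℝ + -⟪M v - k, N ξ⟫_ℝ := by rw [inner_sub_left, hMN]; ring
    rw [this, AddChar.map_add_eq_mul]
    simp only [Circle.smul_def, Circle.coe_mul, smul_eq_mul]
    ring
  simp only [e2]
  rw [integral_const_mul, ← integral_map (f := fun y => 𝐞 (-⟪y, N ξ⟫_ℝ) • φ y) m1.aemeasurable
    (Continuous.aestronglyMeasurable (by fun_prop)), m2, integral_smul_measure,
    ENNReal.toReal_ofReal (by positivity), Complex.real_smul]
  have : (c : ℂ) ≠ 0 := by exact_mod_cast hc.ne'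
  push_cast
  field_simp
end

theorem P1 (c T : ℝ) (hT : 0 < T) (f : ℝ → ℂ) (hf : MemLp f 2 (volume.restrict (Ioc c (c + T)))) :
    ∑' n : ℤ, ‖∫ x in Ioc c (c + T), (𝐞 (n * x / T) : ℂ) * f x‖ₑ ^ 2 =
      ENNReal.ofReal T * ∫⁻ x in Ioc c (c + T), ‖f x‖ₑ ^ 2 := by
  have hab : c < c + T := by linarith
  have h := (hasSum_sq_fourierCoeffOn hab hf).mul_left (T ^ 2)
  have e : ∀ n : ℤ, ‖∫ x in Ioc c (c + T), (𝐞 ((-n : ℤ) * x / T) : ℂ) * f x‖ₑ ^ 2 =
      ENNReal.ofReal (T ^ 2 * ‖fourierCoeffOn hab f n‖ ^ 2) := fun n => by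
    rw [esq, fourierCoeffOn_eq_integral, intervalIntegral.integral_of_le hab.le, norm_smul,
      add_sub_cancel_left, Real.norm_eq_abs, abs_of_pos (by positivity)]
    congr 1
    have : ∀ x : ℝ, fourier (-n) (x : AddCircle T) • f x = (𝐞 ((-n : ℤ) * x / T) : ℂ) * f x := by
      intro x
      rw [fourier_coe_apply, Real.fourierChar_apply, smul_eq_mul]
      congr 2
      push_cast
      ring
    simp only [this]
    field_simp
  rw [← (Equiv.neg ℤ).tsum_eq]
  simp only [Equiv.neg_apply, e]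
  rw [← ENNReal.ofReal_tsum_of_nonneg (fun _ => by positivity) h.summable, h.tsum_eq,
    intervalIntegral.integral_of_le hab.le, add_sub_cancel_left, smul_eq_mul, ← mul_assoc,
    ENNReal.ofReal_mul (by positivity), ofReal_integral_eq_lintegral_ofReal
      (hf.integrable_norm_pow two_ne_zero) (.of_forall fun _ => by positivity)]
  simp only [esq]
  congr 2
  field_simp

theorem P2 (T : ℝ) (hT : 0 < T) (f : ℝ → ℂ) (hf : MemLp f 2 volume) :
    ∑' p : ℤ × ℤ, ‖∫ x in Ioc (T * p.2) (T * p.2 + T), (𝐞 (p.1 * x / T) : ℂ) * f x‖ₑ ^ 2 =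
      ENNReal.ofReal T * ∫⁻ x, ‖f x‖ₑ ^ 2 := by
  rw [ENNReal.tsum_prod', ENNReal.tsum_comm]
  simp only [P1 _ T hT f (hf.restrict _), ENNReal.tsum_mul_left]
  rw [← lintegral_iUnion (fun _ => measurableSet_Ioc), eq_univ_of_forall (s := ⋃ _, _),
    Measure.restrict_univ]
  · intro t
    refine mem_iUnion.mpr ⟨⌈t / T⌉ - 1, ?_, ?_⟩ <;> push_cast
    · have := Int.ceil_lt_add_one (t / T)
      have h2 : (⌈t / T⌉ - 1 : ℝ) < t / T := by linarith
      rwa [lt_div_iff₀' hT] at h2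
    · have := Int.le_ceil (t / T)
      rw [div_le_iff₀' hT] at this
      linarith
  · intro k k' hk
    refine disjoint_left.mpr fun t h1 h2 => hk ?_
    have a1 : (k : ℝ) < k' + 1 := lt_of_mul_lt_mul_left (by linarith [h1.1, h2.2]) hT.le
    have a2 : (k' : ℝ) < k + 1 := lt_of_mul_lt_mul_left (by linarith [h1.2, h2.1]) hT.le
    norm_cast at a1 a2
    omega

def cls (m : ℕ) (p q : ℤ × ℤ) : Prop := q.2 = p.2 ∧ (2 : ℤ) ^ (m + 1) ∣ q.1 - p.1

noncomputable def pk (en : ℕ → ℤ × ℤ) : ℕ → ℕ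
  | m => sInf {r | ∀ l : Fin m, ¬ cls l (en (pk en l)) (en r)}
decreasing_by exact l.2

theorem bij : ∃ p : ℕ → ℤ × ℤ, Function.Bijective
    fun q : ℕ × ℤ => (((p q.1).1 + 2 ^ (q.1 + 1) * q.2, (p q.1).2) : ℤ × ℤ) := by
  let en := (Denumerable.eqv (ℤ × ℤ)).symm
  have hne : ∀ m, {r | ∀ l : Fin m, ¬ cls l (en (pk en l)) (en r)}.Nonempty := fun m => by
    obtain ⟨i, hi⟩ := Infinite.exists_notMem_finset
      (Finset.univ.image fun l : Fin m => (en (pk en l)).2)
    refine ⟨en.symm (0, i), fun l hl => hi ?_⟩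
    rw [Equiv.apply_symm_apply] at hl
    exact Finset.mem_image.mpr ⟨l, Finset.mem_univ _, hl.1.symm⟩
  have h1 : ∀ m l, l < m → ¬ cls l (en (pk en l)) (en (pk en m)) := fun m l h => by
    have := Nat.sInf_mem (hne m)
    rw [← pk] at this
    exact this ⟨l, h⟩
  have h2 : ∀ m l (k k' : ℤ), l < m → (en (pk en m)).2 = (en (pk en l)).2 →
      (en (pk en m)).1 + 2 ^ (m + 1) * k ≠ (en (pk en l)).1 + 2 ^ (l + 1) * k' := by
    intro m l k k' h e1 e2
    refine h1 m l h ⟨e1, ?_⟩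
    have : (en (pk en m)).1 - (en (pk en l)).1 = 2 ^ (l + 1) * k' - 2 ^ (m + 1) * k := by linarith
    rw [this]
    exact (dvd_mul_right _ _).sub ((pow_dvd_pow _ (by omega)).mul_right _)
  refine ⟨fun m => en (pk en m), ?_, fun x => ?_⟩
  · rintro ⟨m, k⟩ ⟨l, k'⟩ h
    simp only [Prod.mk.injEq] at h ⊢
    rcases lt_trichotomy m l with hm | rfl | hm
    · exact absurd h.1.symm (h2 l m _ _ hm h.2.symm)
    · exact ⟨rfl, mul_left_cancel₀ (by positivity) (add_left_cancel h.1)⟩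
    · exact absurd h.1 (h2 m l _ _ hm h.2)
  · by_contra hx
    have h3 : ∀ m, pk en m ≤ en.symm x := fun m => by
      rw [pk]
      refine Nat.sInf_le fun l hl => hx ?_
      rw [Equiv.apply_symm_apply] at hl
      obtain ⟨k, hk⟩ := hl.2
      exact ⟨(l, k), Prod.ext (by simp only; linarith) hl.1.symm⟩
    have h4 : Function.Injective (pk en) := fun m l h => by
      rcases lt_trichotomy m l with hm | hm | hm
      · exact absurd ⟨by rw [h], by rw [h]; simp⟩ (h1 l m hm)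
      · exact hm
      · exact absurd ⟨by rw [h], by rw [h]; simp⟩ (h1 m l hm)
    exact Set.infinite_range_of_injective h4
      ((Set.finite_Iic (en.symm x)).subset (by rintro _ ⟨m, rfl⟩; exact h3 m))

end Pool.Agent.H.MP_4002ad_an
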