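import Pool.Agent.H.MP_4002ad_an.A

set_option autoImplicit false

namespace Pool.Agent.H.MP_4002ad_an
open scoped ENNReal InnerProductSpace
open MeasureTheory Set FourierTransform Real

noncomputable def sh (a s : ℝ) : ℤ := ⌊Real.logb a (2 * |s|)⁻¹⌋

theorem sh_meas (a : ℝ) : Measurable (sh a) := by
  unfold sh Real.logb
  exact Measurable.floor (by fun_prop)

theorem sh_mul {a s : ℝ} (ha : 1 < a) (hs : s ≠ 0) (j : ℤ) : sh a (a ^ j * s) = sh a s - j := by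
  have h0 : 0 < a := by linarith
  have h1 : (2 * |a ^ j * s|)⁻¹ = (2 * |s|)⁻¹ * a ^ ((-j : ℤ) : ℝ) := by
    rw [abs_mul, abs_of_pos (by positivity), Real.rpow_intCast, zpow_neg]
    field_simp
  rw [sh, h1, Real.logb_mul (by positivity) (by positivity), Real.logb_rpow h0 ha.ne',
    Int.floor_add_intCast]
  rfl

theorem sh_nonneg {a s : ℝ} (ha : 1 < a) (hs : s ≠ 0) : 0 ≤ sh a s ↔ |s| ≤ 1 / 2 := by
  have : 0 < |s| := abs_pos.mpr hs
  rw [sh, Int.floor_nonneg, Real.logb_nonneg_iff ha (by positivity), one_le_inv₀ (by positivity)]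
  constructor <;> intro h <;> linarith

noncomputable def bb (T : ℝ) (q : ℤ × ℤ) : ℝ → ℂ :=
  (Ioc (T * q.2) (T * q.2 + T)).indicator fun t => (((√T)⁻¹ : ℝ) : ℂ) * (𝐞 (-(q.1 * t / T)) : ℂ)

theorem bb_meas (T : ℝ) (q : ℤ × ℤ) : Measurable (bb T q) :=
  Measurable.indicator (Continuous.measurable (by fun_prop)) measurableSet_Ioc

theorem rt {T : ℝ} (hT : 0 < T) (z : Circle) :
    ‖(((√T)⁻¹ : ℝ) : ℂ) * z‖ₑ ^ 2 = ENNReal.ofReal T⁻¹ := by
  rw [esq, norm_mul, Circle.norm_coe, mul_one, Complex.norm_real, Real.norm_eq_abs, sq_abs, inv_pow,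
    Real.sq_sqrt hT.le]

theorem bb_en {T : ℝ} (hT : 0 < T) (q : ℤ × ℤ) (t : ℝ) : ‖bb T q t‖ₑ ^ 2 =
    (Ioc (T * q.2) (T * q.2 + T)).indicator (fun _ => ENNReal.ofReal T⁻¹) t := by
  by_cases h : t ∈ Ioc (T * q.2) (T * q.2 + T)
  · rw [bb, indicator_of_mem h, indicator_of_mem h, rt hT]
  · rw [bb, indicator_of_notMem h, indicator_of_notMem h]; simp

theorem bb_one {T : ℝ} (hT : 0 < T) (q : ℤ × ℤ) : ∫⁻ t, ‖bb T q t‖ₑ ^ 2 = 1 := by
  simp only [bb_en hT]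
  rw [lintegral_indicator measurableSet_Ioc, setLIntegral_const, Real.volume_Ioc,
    add_sub_cancel_left, ← ENNReal.ofReal_mul (by positivity), inv_mul_cancel₀ hT.ne',
    ENNReal.ofReal_one]

theorem cj (r x : ℝ) : (starRingEnd ℂ) ((r : ℂ) * (𝐞 (-x) : ℂ)) = r * (𝐞 x : ℂ) := by
  rw [map_mul, Complex.conj_ofReal, AddChar.map_neg_eq_inv, Circle.coe_inv_eq_conj,
    Complex.conj_conj]

theorem sc {T : ℝ} (hT : 0 < T) (z : ℂ) :
    ‖(((√T)⁻¹ : ℝ) : ℂ) * z‖ₑ ^ 2 = ENNReal.ofReal T⁻¹ * ‖z‖ₑ ^ 2 := by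
  have := rt hT 1
  rw [Circle.coe_one, mul_one] at this
  rw [enorm_mul, mul_pow, this]

theorem bb_pars {T : ℝ} (hT : 0 < T) (f : ℝ → ℂ) (hf : MemLp f 2 volume) :
    ∑' q, ‖∫ t, (starRingEnd ℂ) (bb T q t) * f t‖ₑ ^ 2 = ∫⁻ t, ‖f t‖ₑ ^ 2 := by
  have : ∀ q : ℤ × ℤ, ∫ t, (starRingEnd ℂ) (bb T q t) * f t = (((√T)⁻¹ : ℝ) : ℂ) *
      ∫ x in Ioc (T * q.2) (T * q.2 + T), (𝐞 (q.1 * x / T) : ℂ) * f x := fun q => by
    rw [← integral_const_mul, ← integral_indicator measurableSet_Ioc]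
    refine integral_congr_ae (.of_forall fun t => ?_)
    by_cases h : t ∈ Ioc (T * q.2) (T * q.2 + T)
    · simp only [bb, indicator_of_mem h, cj, mul_assoc]
    · simp only [bb, indicator_of_notMem h, map_zero, zero_mul]
  simp only [this, sc hT]
  rw [ENNReal.tsum_mul_left, P2 T hT f hf, ← mul_assoc, ← ENNReal.ofReal_mul (by positivity),
    inv_mul_cancel₀ hT.ne', ENNReal.ofReal_one, one_mul]

def ee (p : ℕ → ℤ × ℤ) (q : ℕ × ℤ) : ℤ × ℤ := ((p q.1).1 + 2 ^ (q.1 + 1) * q.2, (p q.1).2)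

noncomputable def Hh (p : ℕ → ℤ × ℤ) (j k z : ℤ) (t : ℝ) : ℂ :=
  if 0 ≤ z + j then bb (2 * 2 ^ z) (ee p ((z + j).toNat, k)) t else 0

theorem Hh_meas (p : ℕ → ℤ × ℤ) (a : ℝ) (j k : ℤ) :
    Measurable fun y : ℝ × ℝ => Hh p j k (sh a y.1) y.2 := by
  have : Measurable fun y : ℤ × ℝ => Hh p j k y.1 y.2 :=
    measurable_from_prod_countable_right fun z => by
      unfold Hh
      by_cases h : 0 ≤ z + j
      · simp only [h, if_true]
        exact bb_meas _ _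
      · simp only [h, if_false]
        exact measurable_const
  exact this.comp (((sh_meas a).comp measurable_fst).prodMk measurable_snd)

theorem Hh_pars {p : ℕ → ℤ × ℤ} (hp : Function.Bijective (ee p)) (z : ℤ) (f : ℝ → ℂ)
    (hf : MemLp f 2 volume) :
    ∑' q : ℤ × ℤ, ‖∫ t, (starRingEnd ℂ) (Hh p q.1 q.2 z t) * f t‖ₑ ^ 2 = ∫⁻ t, ‖f t‖ₑ ^ 2 := by
  rw [← Function.Injective.tsum_eq (g := fun q : ℕ × ℤ => ((q.1 - z, q.2) : ℤ × ℤ)),
    ← bb_pars (T := 2 * 2 ^ z) (by positivity) f hf, ← (Equiv.ofBijective _ hp).tsum_eq]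
  · refine tsum_congr fun q => ?_
    simp [Hh]
  · rintro ⟨m, k⟩ ⟨m', k'⟩ h
    simp only [Prod.mk.injEq] at h ⊢
    omega
  · rintro ⟨j, k⟩ h
    by_cases h0 : 0 ≤ z + j
    · exact ⟨((z + j).toNat, k), Prod.ext (by simp only; omega) rfl⟩
    · simp [Hh, h0] at h

theorem Hh_sc (p : ℕ → ℤ × ℤ) (j k z : ℤ) (t : ℝ) :
    ((√(2 ^ j) : ℝ) : ℂ) * (𝐞 (-(k * (2 ^ j * t))) : ℂ) * Hh p 0 0 (z + j) (2 ^ j * t) =
      Hh p j k z t := by
  unfold Hh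
  rw [add_zero]
  split_ifs with h
  · have h1 : (0 : ℝ) < 2 ^ j := by positivity
    have h2 : (0 : ℝ) < 2 ^ z := by positivity
    have h3 : (2 : ℝ) ^ (z + j) = 2 ^ z * 2 ^ j := zpow_add₀ two_ne_zero _ _
    have h4 : (2 : ℝ) ^ (z + j).toNat = 2 ^ z * 2 ^ j := by
      rw [← zpow_natCast, Int.toNat_of_nonneg h, h3]
    simp only [bb, ee, h3, mul_zero, add_zero]
    set i : ℝ := ((p (z + j).toNat).2 : ℝ)
    by_cases ht : t ∈ Ioc (2 * 2 ^ z * i) (2 * 2 ^ z * i + 2 * 2 ^ z)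
    · rw [indicator_of_mem ht, indicator_of_mem (by constructor <;> nlinarith [ht.1, ht.2])]
      have e1 : (-(((p (z + j).toNat).1 + 2 ^ ((z + j).toNat + 1) * k : ℤ) * t / (2 * 2 ^ z)) : ℝ) =
          -(k * (2 ^ j * t)) + -((p (z + j).toNat).1 * (2 ^ j * t) / (2 * (2 ^ z * 2 ^ j))) := by
        push_cast
        rw [pow_succ, h4]
        field_simp
        ring
      have e2 : (√(2 * 2 ^ z))⁻¹ = √(2 ^ j) * (√(2 * (2 ^ z * 2 ^ j)))⁻¹ := by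
        rw [← mul_assoc, Real.sqrt_mul' _ h1.le]
        field_simp
      rw [e1, e2, AddChar.map_add_eq_mul, Circle.coe_mul, Complex.ofReal_mul]
      ring
    · rw [indicator_of_notMem ht, indicator_of_notMem, mul_zero]
      intro h5
      exact ht ⟨by nlinarith [h5.1], by nlinarith [h5.2]⟩
  · simp

theorem cald {p : ℕ → ℤ × ℤ} (hp : Function.Bijective (ee p)) (z : ℤ) (t : ℝ) :
    ∑' j : ℤ, ‖Hh p 0 0 (z - j) ((2 ^ j)⁻¹ * t)‖ₑ ^ 2 < 1 := by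
  rw [← Function.Injective.tsum_eq (g := fun m : ℕ => z - m)]
  · have hT : (0 : ℝ) < 2 * 2 ^ z := by positivity
    have h1 : ∀ m : ℕ, ‖Hh p 0 0 (z - (z - m)) ((2 ^ (z - m))⁻¹ * t)‖ₑ ^ 2 =
        (Ioc (2 * 2 ^ z * ((p m).2 : ℝ)) (2 * 2 ^ z * (p m).2 + 2 * 2 ^ z)).indicator
          (fun _ => 2⁻¹ ^ (m + 1)) t := fun m => by
      have h2 : (0 : ℝ) < 2 ^ m := by positivity
      have h3 : (0 : ℝ) < 2 ^ (z - m) := by positivity
      have h4 : (2 : ℝ) ^ z = 2 ^ m * 2 ^ (z - m) := by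
        rw [← zpow_natCast, ← zpow_add₀ two_ne_zero]; simp
      simp only [Hh, sub_sub_cancel, add_zero, Nat.cast_nonneg, if_true, Int.toNat_natCast,
        zpow_natCast, ee]
      rw [bb_en (by positivity), h4]
      obtain ⟨u, rfl⟩ : ∃ u, t = 2 ^ (z - m) * u := ⟨(2 ^ (z - m))⁻¹ * t, by field_simp⟩
      rw [inv_mul_cancel_left₀ h3.ne']
      set i : ℝ := ((p m).2 : ℝ)
      by_cases ht : u ∈ Ioc (2 * 2 ^ m * i) (2 * 2 ^ m * i + 2 * 2 ^ m)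
      · rw [indicator_of_mem ht, indicator_of_mem (by constructor <;> nlinarith [ht.1, ht.2]),
          ← pow_succ', ← inv_pow, ENNReal.ofReal_pow (by norm_num),
          ENNReal.ofReal_inv_of_pos two_pos, ENNReal.ofReal_ofNat]
      · rw [indicator_of_notMem ht, indicator_of_notMem]
        intro h5
        exact ht ⟨by nlinarith [h5.1], by nlinarith [h5.2]⟩
    simp only [h1]
    have h5 : ∑' m : ℕ, (2⁻¹ : ℝ≥0∞) ^ (m + 1) = 1 := by
      rw [ENNReal.tsum_geometric_add_one, ENNReal.one_sub_inv_two,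
        ENNReal.mul_inv_cancel (by simp) (by simp)]
    obtain ⟨⟨m, k⟩, hm⟩ := hp.2 (0, ⌈t / (2 * 2 ^ z)⌉)
    have h6 : (p m).2 = ⌈t / (2 * 2 ^ z)⌉ := congrArg Prod.snd hm
    have hle : ∀ l : ℕ, (Ioc (2 * 2 ^ z * ((p l).2 : ℝ)) (2 * 2 ^ z * (p l).2 + 2 * 2 ^ z)).indicator
        (fun _ => (2⁻¹ : ℝ≥0∞) ^ (l + 1)) t ≤ 2⁻¹ ^ (l + 1) := fun l => indicator_le_self _ _ t
    rw [← h5]
    refine ENNReal.tsum_lt_tsum (i := m) (ne_top_of_le_ne_top (by rw [h5]; simp)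
      (ENNReal.tsum_le_tsum hle)) hle ?_
    rw [indicator_of_notMem]
    · exact ENNReal.pow_pos (by simp) _
    · intro h7
      have := Int.le_ceil (t / (2 * 2 ^ z))
      rw [div_le_iff₀' hT, ← h6] at this
      linarith [h7.1]
  · intro m m' h
    simp only at h
    omega
  · intro j h
    by_cases h0 : 0 ≤ z - j
    · exact ⟨(z - j).toNat, by simp only; omega⟩
    · exact absurd (by simp only [Hh, add_zero, h0, if_false]; simp) h

theorem nz (c : ℝ) : ∀ᵐ s : ℝ, s ≠ c := by simp [ae_iff]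

theorem g_one (p : ℕ → ℤ × ℤ) {a : ℝ} (ha : 1 < a) :
    ∫⁻ y : ℝ × ℝ, ‖Hh p 0 0 (sh a y.1) y.2‖ₑ ^ 2 = 1 := by
  rw [Measure.volume_eq_prod, lintegral_prod _ ((Hh_meas p a 0 0).enorm.pow_const 2).aemeasurable,
    lintegral_congr_ae (g := (Icc (-(1 / 2) : ℝ) (1 / 2)).indicator fun _ => 1),
    lintegral_indicator measurableSet_Icc]
  · norm_num
  · filter_upwards [nz 0] with s hs
    simp only [Hh, add_zero, sh_nonneg ha hs, indicator, mem_Icc, ← abs_le]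
    split_ifs
    · exact bb_one (by positivity) _
    · simp

noncomputable def G (p : ℕ → ℤ × ℤ) (a : ℝ) (j k l : ℤ) (y : ℝ × ℝ) : ℂ :=
  (((√(a ^ j))⁻¹ : ℝ) : ℂ) * (𝐞 (-(k * y.1 / a ^ j)) : ℂ) * Hh p j l (sh a y.1) y.2

theorem pars {p : ℕ → ℤ × ℤ} (hp : Function.Bijective (ee p)) {a : ℝ} (ha : 1 < a)
    (F : ℝ × ℝ → ℂ) (hm : Measurable F) (hF : ∫⁻ y, ‖F y‖ₑ ^ 2 ≠ ⊤)
    (hi : ∀ j k l, Integrable fun y => (starRingEnd ℂ) (G p a j k l y) * F y) :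
    ∑' q : ℤ × ℤ, ∑' k, ‖∫ y, (starRingEnd ℂ) (G p a q.1 k q.2 y) * F y‖ₑ ^ 2 =
      ∫⁻ y, ‖F y‖ₑ ^ 2 := by
  have m2 : Measurable fun y => ‖F y‖ₑ ^ 2 := hm.enorm.pow_const 2
  rw [Measure.volume_eq_prod, lintegral_prod _ m2.aemeasurable] at hF ⊢
  set Φ : ℤ × ℤ → ℝ → ℂ := fun q s => ∫ t, (starRingEnd ℂ) (Hh p q.1 q.2 (sh a s) t) * F (s, t)
    with hΦ
  have mΦ : ∀ q, Measurable (Φ q) := fun q =>
    (StronglyMeasurable.integral_prod_right' (f := fun y : ℝ × ℝ =>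
      (starRingEnd ℂ) (Hh p q.1 q.2 (sh a y.1) y.2) * F y)
      ((Complex.continuous_conj.measurable.comp (Hh_meas p a _ _)).mul hm).stronglyMeasurable).measurable
  have h1 : ∑' q, ∫⁻ s, ‖Φ q s‖ₑ ^ 2 = ∫⁻ s, ∫⁻ t, ‖F (s, t)‖ₑ ^ 2 := by
    rw [← lintegral_tsum fun q => ((mΦ q).enorm.pow_const 2).aemeasurable]
    refine lintegral_congr_ae ?_
    filter_upwards [ae_lt_top m2.lintegral_prod_right' hF] with s hs
    exact Hh_pars hp _ _ (mem2 (hm.comp measurable_prodMk_left).aestronglyMeasurable hs.ne)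
  rw [← h1]
  refine tsum_congr fun q => ?_
  have hT : 0 < a ^ q.1 := by positivity
  have h2 : MemLp (Φ q) 2 volume := mem2 (mΦ q).aestronglyMeasurable
    (ne_top_of_le_ne_top hF (h1 ▸ ENNReal.le_tsum q))
  have h3 : ∀ᵐ s, s ∉ Ioc (-(a ^ q.1 / 2)) (-(a ^ q.1 / 2) + a ^ q.1) → Φ q s = 0 := by
    filter_upwards [nz 0, nz (-(a ^ q.1 / 2))] with s h0 h1 hs
    have : ¬ 0 ≤ sh a s + q.1 := fun h => hs (by
      have e := sh_mul ha h0 (-q.1)
      rw [sub_neg_eq_add] at e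
      rw [← e, sh_nonneg ha (by positivity), abs_mul, abs_of_pos (by positivity), zpow_neg,
        inv_mul_le_iff₀ hT, abs_le] at h
      exact ⟨lt_of_le_of_ne (by linarith [h.1]) h1.symm, by linarith [h.2]⟩)
    simp [hΦ, Hh, this]
  have h4 : ∀ k : ℤ, ∫ y, (starRingEnd ℂ) (G p a q.1 k q.2 y) * F y ∂(volume.prod volume) =
      (((√(a ^ q.1))⁻¹ : ℝ) : ℂ) * ∫ s in Ioc (-(a ^ q.1 / 2)) (-(a ^ q.1 / 2) + a ^ q.1),
        (𝐞 (k * s / a ^ q.1) : ℂ) * Φ q s := fun k => by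
    rw [integral_prod _ (hi _ _ _), setIntegral_eq_integral_of_ae_compl_eq_zero
      (h3.mono fun s hs h => by rw [hs h, mul_zero]), ← integral_const_mul]
    refine integral_congr_ae (.of_forall fun s => ?_)
    simp only [G, map_mul _ _ (Hh _ _ _ _ _), cj]
    simp only [hΦ, ← integral_const_mul, mul_assoc]
  simp only [h4, sc hT]
  rw [ENNReal.tsum_mul_left, P1 _ _ hT _ (h2.restrict _), ← mul_assoc,
    ← ENNReal.ofReal_mul (by positivity), inv_mul_cancel₀ hT.ne', ENNReal.ofReal_one, one_mul,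
    ← lintegral_indicator measurableSet_Ioc]
  refine lintegral_congr_ae (h3.mono fun s hs => ?_)
  by_cases h : s ∈ Ioc (-(a ^ q.1 / 2)) (-(a ^ q.1 / 2) + a ^ q.1)
  · rw [indicator_of_mem h]
  · rw [indicator_of_notMem h]
    simp [hs h]

end Pool.Agent.H.MP_4002ad_an
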